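import Pool.Agent.H88.EDV.VSE

/-!
# VDE: the degree of the minimal equation
-/

set_option autoImplicit false

open MvPolynomial
open Pool.Agent.H12.ZD (pmap)
open Pool.Agent.H18.HIT Pool.Agent.H18.HX Pool.Agent.H18.VZ
open Pool.Agent.H8.TD (lc dg)
open Pool.Agent.H2.ED
open Pool.Agent.H2.EDV

namespace Pool.Agent.H88.EDV

/-- scaling of forms -/
theorem aeval_scale {k A : Type} [Field k] [CommRing A] [Algebra k A] {n : ℕ}
    {p : MvPolynomial (Fin n) k} {d : ℕ} (hp : p.IsHomogeneous d) (t : A) (g : Fin n → A) :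
    aeval (fun i => t * g i) p = t ^ d * aeval g p := by
  rw [aeval_def, aeval_def, eval₂_eq', eval₂_eq', Finset.mul_sum]
  refine Finset.sum_congr rfl fun m hm => ?_
  have hd : ∑ i, m i = d := by
    have h := hp (mem_support_iff.1 hm)
    rw [← h, Finsupp.weight_apply, Finsupp.sum_fintype]
    · simp
    · intro i; simp
  simp only [mul_pow, Finset.prod_mul_distrib, Finset.prod_pow_eq_pow_sum, hd]
  ring

section

variable {k K : Type} [Field k] [Field K] [Algebra k K] {ρ : ℕ} (μ : Fin ρ → K)

/-- substitution of `t, t μ` -/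
noncomputable def Tht : MvPolynomial (Fin (ρ + 1)) k →ₐ[k] Polynomial K :=
  aeval (fun i => Polynomial.X * Polynomial.C ((Fin.cons 1 μ : Fin (ρ + 1) → K) i))

theorem tht_hom {p : MvPolynomial (Fin (ρ + 1)) k} {d : ℕ} (hp : p.IsHomogeneous d) :
    Tht μ p = Polynomial.C (aeval (Fin.cons 1 μ : Fin (ρ + 1) → K) p) * Polynomial.X ^ d := by
  rw [Tht, aeval_scale hp, mul_comm]
  congr 1
  have h : (fun i => Polynomial.C ((Fin.cons 1 μ : Fin (ρ + 1) → K) i)) =
      fun i => (Polynomial.CAlgHom : K →ₐ[K] Polynomial K).restrictScalars k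
        ((Fin.cons 1 μ : Fin (ρ + 1) → K) i) := by
    funext i; rfl
  rw [h, ← MvPolynomial.comp_aeval_apply]
  rfl

theorem hom_inj [Infinite k] (hμ : AlgebraicIndependent k μ)
    {p : MvPolynomial (Fin (ρ + 1)) k} {d : ℕ} (hp : p.IsHomogeneous d)
    (h0 : aeval (Fin.cons 1 μ : Fin (ρ + 1) → K) p = 0) : p = 0 := by
  set q : MvPolynomial (Fin ρ) k := aeval (Fin.cons 1 X : Fin (ρ + 1) → MvPolynomial (Fin ρ) k) p
    with hq
  have hq0 : q = 0 := by
    apply hμ.eq_zero_of_aeval_eq_zero
    rw [hq, MvPolynomial.comp_aeval_apply, ← h0]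
    congr 2
    funext i
    refine Fin.cases ?_ (fun j => ?_) i
    · simp
    · simp
  have hX : X 0 * p = 0 := by
    apply MvPolynomial.funext
    intro x
    rw [map_mul, eval_X, map_zero]
    by_cases hx : x 0 = 0
    · rw [hx, zero_mul]
    have h1 : eval x p = aeval (fun i => x 0 * (x 0)⁻¹ * x i) p := by
      have h5 : (fun i => x 0 * (x 0)⁻¹ * x i) = x := by
        funext i
        rw [mul_inv_cancel₀ hx, one_mul]
      rw [h5, aeval_eq_eval]
    have h2 : aeval (fun i => x 0 * ((x 0)⁻¹ * x i)) p =
        x 0 ^ d * aeval (fun i => (x 0)⁻¹ * x i) p := aeval_scale hp _ _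
    have h3 : aeval (fun i => (x 0)⁻¹ * x i) p = aeval (fun j : Fin ρ => (x 0)⁻¹ * x j.succ) q := by
      rw [hq, MvPolynomial.comp_aeval_apply]
      congr 2
      funext i
      refine Fin.cases ?_ (fun j => ?_) i
      · simp [inv_mul_cancel₀ hx]
      · simp
    rw [h1]
    simp only [mul_assoc] at h2 ⊢
    rw [h2, h3, hq0, map_zero, mul_zero, mul_zero]
  rcases mul_eq_zero.1 hX with h | h
  · exact absurd h (X_ne_zero 0)
  · exact h

theorem tht_inj [Infinite k] (hμ : AlgebraicIndependent k μ) :
    Function.Injective (Tht μ : MvPolynomial (Fin (ρ + 1)) k →ₐ[k] Polynomial K) := by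
  rw [injective_iff_map_eq_zero (Tht μ : MvPolynomial (Fin (ρ + 1)) k →ₐ[k] Polynomial K)]
  intro p hp
  have h1 : ∀ d, homogeneousComponent d p = 0 := by
    intro d
    apply hom_inj μ hμ (homogeneousComponent_isHomogeneous d p)
    have h2 : Tht μ p = ∑ i ∈ Finset.range (p.totalDegree + 1),
        Polynomial.C (aeval (Fin.cons 1 μ : Fin (ρ + 1) → K) (homogeneousComponent i p)) *
          Polynomial.X ^ i := by
      conv_lhs => rw [← sum_homogeneousComponent p]
      rw [map_sum]
      exact Finset.sum_congr rfl fun i _ => tht_hom μ (homogeneousComponent_isHomogeneous i p)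
    have h3 : (Tht μ p).coeff d =
        aeval (Fin.cons 1 μ : Fin (ρ + 1) → K) (homogeneousComponent d p) := by
      rw [h2, Polynomial.finsetSum_coeff]
      simp only [Polynomial.coeff_C_mul_X_pow]
      by_cases hd : d ∈ Finset.range (p.totalDegree + 1)
      · rw [Finset.sum_eq_single d]
        · simp
        · intro b _ hb
          rw [if_neg (Ne.symm hb)]
        · intro h; exact absurd hd h
      · rw [Finset.sum_eq_zero]
        · rw [homogeneousComponent_eq_zero, map_zero]
          simpa [Nat.lt_succ_iff] using hd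
        · intro b hb
          rw [if_neg]
          rintro rfl
          exact hd hb
    rw [← h3, hp, Polynomial.coeff_zero]
  rw [← sum_homogeneousComponent p]
  exact Finset.sum_eq_zero fun i _ => h1 i

end

theorem pf_VDE : T_VDE := by
  intro ρ E Y k K _ _ _ _ μ z Cf hμ hfin hhom hC0 hirr hz
  rcases Nat.eq_zero_or_pos E with hE | hE
  · omega
  set M := IntermediateField.adjoin k (Set.range μ) with hM
  set R := MvPolynomial (Fin (ρ + 1)) k with hR
  let L := RatFunc K
  let Ψ : R →+* L := (algebraMap (Polynomial K) L).comp (Tht μ).toRingHom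
  have hΨ : Function.Injective Ψ :=
    (IsFractionRing.injective (Polynomial K) L).comp (tht_inj μ hμ)
  let F := FractionRing R
  let Φ : F →+* L := IsFractionRing.lift hΨ
  have hΦ : ∀ r : R, Φ (algebraMap R F r) = Ψ r := fun r => IsFractionRing.lift_algebraMap hΨ r
  let _ : Algebra F L := Φ.toAlgebra
  let ι : K →+* L := (algebraMap (Polynomial K) L).comp Polynomial.C
  let tt : L := algebraMap (Polynomial K) L Polynomial.X
  have htt : tt ≠ 0 := by
    intro h
    have : (Polynomial.X : Polynomial K) = 0 := by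
      apply IsFractionRing.injective (Polynomial K) L
      rw [map_zero]
      exact h
    exact Polynomial.X_ne_zero this
  have hΨh : ∀ (p : R) (d : ℕ), p.IsHomogeneous d →
      Ψ p = ι (aeval (Fin.cons 1 μ : Fin (ρ + 1) → K) p) * tt ^ d := by
    intro p d hp
    show algebraMap (Polynomial K) L (Tht μ p) = _
    rw [tht_hom μ hp, map_mul, map_pow]
    rfl
  set Q : Polynomial R := ∑ j : Fin (E + 1), Polynomial.C (Cf j) * Polynomial.X ^ (E - (j : ℕ))
    with hQ
  have hdegQ : Q.natDegree = E := by
    apply le_antisymm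
    · apply Polynomial.natDegree_sum_le_of_forall_le
      intro j _
      exact (Polynomial.natDegree_C_mul_X_pow_le _ _).trans (Nat.sub_le _ _)
    · apply Polynomial.le_natDegree_of_ne_zero
      rw [hQ, Polynomial.finsetSum_coeff]
      simp only [Polynomial.coeff_C_mul_X_pow]
      rw [Finset.sum_eq_single 0]
      · simpa using hC0
      · intro b _ hb
        rw [if_neg]
        have h1 : (b : ℕ) ≠ 0 := fun h => hb (Fin.ext h)
        have h2 := b.2
        omega
      · intro h; exact absurd (Finset.mem_univ _) h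
  have hprim : Q.IsPrimitive := hirr.isPrimitive (by omega)
  have hirrF : Irreducible (Q.map (algebraMap R F)) :=
    (Polynomial.IsPrimitive.irreducible_iff_irreducible_map_fraction_map hprim).1 hirr
  have hroot : Polynomial.aeval (ι z) (Q.map (algebraMap R F)) = 0 := by
    rw [Polynomial.aeval_def, Polynomial.eval₂_map]
    have h1 : (algebraMap F L).comp (algebraMap R F) = Ψ := by
      exact RingHom.ext fun r => hΦ r
    rw [h1, hQ, Polynomial.eval₂_finsetSum]
    have h2 : ∀ j : Fin (E + 1),
        Polynomial.eval₂ Ψ (ι z) (Polynomial.C (Cf j) * Polynomial.X ^ (E - (j : ℕ))) =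
        ι (aeval (Fin.cons 1 μ : Fin (ρ + 1) → K) (Cf j) * z ^ (E - (j : ℕ))) * tt ^ Y := by
      intro j
      rw [Polynomial.eval₂_mul, Polynomial.eval₂_C, Polynomial.eval₂_X_pow, hΨh _ _ (hhom j),
        map_mul, map_pow]
      ring
    rw [Finset.sum_congr rfl fun j _ => h2 j, ← Finset.sum_mul, ← map_sum, hz, map_zero, zero_mul]
  have hmin : (minpoly F (ι z)).natDegree = E := by
    rw [← minpoly.eq_of_irreducible hirrF hroot]
    rw [Polynomial.natDegree_mul_C]
    · rw [Polynomial.natDegree_map_eq_of_injective (IsFractionRing.injective R F), hdegQ]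
    · rw [ne_eq, inv_eq_zero, Polynomial.leadingCoeff_eq_zero]
      exact hirrF.ne_zero
  have : FiniteDimensional M K := hfin
  have hint : IsIntegral M z := Algebra.IsIntegral.isIntegral z
  set g := minpoly M z with hg
  have hgm : g.Monic := minpoly.monic hint
  have hle : g.natDegree ≤ Module.finrank M K := minpoly.natDegree_le z
  -- the elements of `M` come from `F`
  have hmem : ∀ c : M, ∃ f : F, Φ f = ι (c : K) := by
    have hμF : ∀ i, ι (μ i) ∈ Φ.fieldRange := by
      intro i
      refine ⟨algebraMap R F (X i.succ) / algebraMap R F (X 0), ?_⟩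
      have h1 : Φ (algebraMap R F (X i.succ)) = ι (μ i) * tt := by
        rw [hΦ, hΨh _ _ (isHomogeneous_X k i.succ), aeval_X, Fin.cons_succ, pow_one]
      have h0 : Φ (algebraMap R F (X 0)) = tt := by
        rw [hΦ, hΨh _ _ (isHomogeneous_X k 0), aeval_X, Fin.cons_zero, pow_one, map_one, one_mul]
      rw [map_div₀, h1, h0, mul_div_assoc, div_self htt, mul_one]
    have hkF : ∀ a : k, ι (algebraMap k K a) ∈ Φ.fieldRange := by
      intro a
      refine ⟨algebraMap R F (C a), ?_⟩
      rw [hΦ, hΨh _ _ (isHomogeneous_C _ a), aeval_C, pow_zero, mul_one]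
    have hpol : ∀ u : MvPolynomial (Fin ρ) k, ι (aeval μ u) ∈ Φ.fieldRange := by
      intro u
      induction u using MvPolynomial.induction_on with
      | C a => rw [aeval_C]; exact hkF a
      | add p q hp hq => rw [map_add, map_add]; exact add_mem hp hq
      | mul_X p i hp => rw [map_mul, map_mul, aeval_X]; exact mul_mem hp (hμF i)
    intro c
    obtain ⟨u, w, hw, huw⟩ := exists_quot μ c.2
    have h1 : ι (c : K) = ι (aeval μ u) / ι (aeval μ w) := by
      rw [eq_div_iff, ← map_mul, mul_comm, huw]
      intro h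
      exact hw (ι.injective (by rw [h, map_zero]))
    rw [h1]
    exact div_mem (hpol u) (hpol w)
  obtain ⟨G, hG, hGd, hGm⟩ : ∃ G : Polynomial F,
      G.map Φ = g.map (ι.comp (algebraMap M K)) ∧ G.natDegree =
        (g.map (ι.comp (algebraMap M K))).natDegree ∧ G.Monic := by
    apply Polynomial.lifts_and_natDegree_eq_and_monic
    · rw [Polynomial.lifts_iff_coeff_lifts]
      intro n
      rw [Polynomial.coeff_map]
      exact hmem _
    · exact hgm.map _
  have hGz : Polynomial.aeval (ι z) G = 0 := by
    rw [Polynomial.aeval_def]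
    have h1 : Polynomial.eval₂ (algebraMap F L) (ι z) G = (G.map Φ).eval (ι z) := by
      rw [Polynomial.eval_map]; rfl
    rw [h1, hG, Polynomial.eval_map, ← Polynomial.hom_eval₂]
    have h2 : Polynomial.eval₂ (algebraMap M K) z g = 0 := minpoly.aeval M z
    rw [h2, map_zero]
  have h3 : (minpoly F (ι z)).natDegree ≤ G.natDegree :=
    Polynomial.natDegree_le_natDegree (minpoly.min F (ι z) hGm hGz)
  rw [hmin, hGd, Polynomial.natDegree_map] at h3
  exact h3.trans hle

end Pool.Agent.H88.EDV
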