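import Pool.Agent.H2.EDV.Targets
import Pool.Agent.H8.TX.Basic

/-!
# VLN: heights in linear coordinates
-/

set_option autoImplicit false

open Pool.Agent.H18.HIT Pool.Agent.H18.HX Pool.Agent.H18.VZ
open Pool.Agent.H8.ZA (HFam Const NA)
open Pool.Agent.H8.TD (lc)
open Pool.Agent.H8.TX (hn szn szn_pos one_le_szn le_szn szn_le szn_finite log_szn_finite
  hn_le_sum szn_one)
open Pool.Agent.H2.EDV

namespace Pool.Agent.H88.EDV

variable {K : IntermediateField ℚ Qb}

/-- the height of a vector of linear combinations -/
theorem hn_lcv (F : HFam K) {n m : ℕ} (s : Fin m → Fin n → Qb) : ∃ c : ℝ, ∀ x : Fin n → Qb,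
    hn F (fun a => lc (s a) x) ≤ hn F x + c := by
  classical
  set C : F.ι → ℝ := fun i => (if i ∈ F.arch then ((n : ℝ) + 1) else 1) *
    ∏ a, szn (F.abv i) (s a) with hC
  have hprod : ∀ i (t : Finset (Fin m)), 1 ≤ ∏ a ∈ t, szn (F.abv i) (s a) := by
    intro i t
    induction t using Finset.induction_on with
    | empty => rw [Finset.prod_empty]
    | insert a t ha ih =>
      rw [Finset.prod_insert ha]
      exact one_le_mul_of_one_le_of_one_le (one_le_szn _ _) ih
  have hCpos : ∀ i, 1 ≤ C i := by
    intro i
    apply one_le_mul_of_one_le_of_one_le _ (hprod i _)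
    split_ifs
    · have : (0 : ℝ) ≤ n := Nat.cast_nonneg n
      linarith
    · exact le_rfl
  have hCfin : (Function.support fun i => Real.log (C i)).Finite := by
    refine ((F.arch.finite_toSet).union
      (Set.finite_iUnion fun a : Fin m => szn_finite F (s a))).subset fun i hi => ?_
    by_contra hcon
    rw [Set.mem_union] at hcon
    push Not at hcon
    apply hi
    have h1 : i ∉ F.arch := fun h => hcon.1 (by exact_mod_cast h)
    have h2 : ∏ a, szn (F.abv i) (s a) = 1 := by
      refine Finset.prod_eq_one fun a _ => ?_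
      by_contra h
      exact hcon.2 (Set.mem_iUnion.2 ⟨a, h⟩)
    simp only [hC, if_neg h1, h2, mul_one, Real.log_one]
  refine ⟨∑ᶠ i, Real.log (C i), fun x => ?_⟩
  rw [hn, hn, ← finsum_add_distrib (log_szn_finite F x) hCfin]
  apply finsum_le_finsum'
  · exact log_szn_finite F _
  · exact ((log_szn_finite F x).union hCfin).subset (Function.support_add _ _)
  · intro i
    change Real.log (szn (F.abv i) (fun a => lc (s a) x)) ≤
      Real.log (szn (F.abv i) x) + Real.log (C i)
    rw [← Real.log_mul (szn_pos _ _).ne' (by have := hCpos i; positivity)]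
    apply Real.log_le_log (szn_pos _ _)
    have hx := one_le_szn (F.abv i) x
    apply szn_le
    · exact one_le_mul_of_one_le_of_one_le hx (hCpos i)
    intro a
    have hs := one_le_szn (F.abv i) (s a)
    have hsP : szn (F.abv i) (s a) ≤ ∏ a, szn (F.abv i) (s a) := by
      rw [← Finset.mul_prod_erase Finset.univ (fun a => szn (F.abv i) (s a))
        (Finset.mem_univ a)]
      exact le_mul_of_one_le_right (szn_pos _ _).le (hprod i _)
    have h1 : ∀ j, F.abv i (s a j • x j) ≤ szn (F.abv i) (s a) * szn (F.abv i) x := by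
      intro j
      rw [smul_eq_mul, map_mul]
      exact mul_le_mul (le_szn _ _ j) (le_szn _ _ j) ((F.abv i).nonneg _) (by linarith)
    have h0 : 0 ≤ szn (F.abv i) (s a) * szn (F.abv i) x := by positivity
    have hPx : szn (F.abv i) (s a) * szn (F.abv i) x ≤
        (∏ a, szn (F.abv i) (s a)) * szn (F.abv i) x :=
      mul_le_mul_of_nonneg_right hsP (by linarith)
    by_cases hi : i ∈ F.arch
    · have h2 : F.abv i (lc (s a) x) ≤ n * (szn (F.abv i) (s a) * szn (F.abv i) x) := by
        rw [lc]
        calc F.abv i (∑ j, s a j • x j) ≤ ∑ j, F.abv i (s a j • x j) :=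
              IsAbsoluteValue.abv_sum (F.abv i) _ _
          _ ≤ ∑ _j : Fin n, szn (F.abv i) (s a) * szn (F.abv i) x :=
              Finset.sum_le_sum fun j _ => h1 j
          _ = _ := by
              rw [Finset.sum_const, Finset.card_univ, Fintype.card_fin, nsmul_eq_mul]
      simp only [hC, if_pos hi]
      have h3 : (n : ℝ) * (szn (F.abv i) (s a) * szn (F.abv i) x) ≤
          (n + 1) * ((∏ a, szn (F.abv i) (s a)) * szn (F.abv i) x) :=
        mul_le_mul (by linarith) hPx h0 (by positivity)
      linarith
    · have h2 : F.abv i (lc (s a) x) ≤ szn (F.abv i) (s a) * szn (F.abv i) x := by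
        rw [lc]
        have h3 : ∀ t : Finset (Fin n), F.abv i (∑ j ∈ t, s a j • x j) ≤
            szn (F.abv i) (s a) * szn (F.abv i) x := by
          intro t
          induction t using Finset.induction_on with
          | empty =>
            rw [Finset.sum_empty, map_zero]
            exact h0
          | insert b t hb ih =>
            rw [Finset.sum_insert hb]
            exact (F.na i hi _ _).trans (max_le (h1 b) ih)
        exact h3 _
      simp only [hC, if_neg hi, one_mul]
      linarith

theorem pf_VLN : T_VLN := by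
  intro N s hs K' F'
  set B : Matrix (Fin N) (Fin N) Qb := (Matrix.of s)⁻¹ with hB
  have hBs : B * Matrix.of s = 1 := Matrix.nonsing_inv_mul _ (isUnit_iff_ne_zero.2 hs)
  obtain ⟨c, hc⟩ := hn_lcv F' (fun a => B a)
  refine ⟨c, fun x => ?_⟩
  have hx : (fun a => lc (B a) (fun j => lc (s j) x)) = x := by
    have h1 : ∀ a, lc (B a) (fun j => lc (s j) x) = (B.mulVec ((Matrix.of s).mulVec x)) a := by
      intro a
      simp only [lc, Matrix.mulVec, dotProduct, smul_eq_mul, Matrix.of_apply]
    funext a
    rw [h1, Matrix.mulVec_mulVec, hBs, Matrix.one_mulVec]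
  have h2 := hc (fun j => lc (s j) x)
  rw [hx] at h2
  exact h2.trans (add_le_add (hn_le_sum F' _) le_rfl)

end Pool.Agent.H88.EDV
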