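import Pool.Agent.H2.EDV.Targets

/-!
# VSE: a generating linear form separates the points of the general fibres
-/

set_option autoImplicit false

open MvPolynomial
open Pool.Agent.H12.ZD (pmap)
open Pool.Agent.H18.HIT Pool.Agent.H18.HX Pool.Agent.H18.VZ
open Pool.Agent.H8.TD (lc)
open Pool.Agent.H2.ED
open Pool.Agent.H2.EDV

namespace Pool.Agent.H88.EDV

section

variable {k κ : Type} [Field k] [Field κ] [Algebra k κ] {r : ℕ} (μ : Fin r → κ) (z : κ)

/-- elements of `k(μ)` are quotients of polynomials -/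
theorem exists_quot {c : κ} (hc : c ∈ IntermediateField.adjoin k (Set.range μ)) :
    ∃ u w : MvPolynomial (Fin r) k, aeval μ w ≠ 0 ∧ aeval μ w * c = aeval μ u := by
  obtain ⟨u, w, h⟩ := (IntermediateField.mem_adjoin_range_iff k μ c).1 hc
  by_cases hw : aeval μ w = 0
  · refine ⟨0, 1, by simp, ?_⟩
    rw [h, hw, div_zero, map_zero, mul_zero]
  · refine ⟨u, w, hw, ?_⟩
    rw [h]
    field_simp

/-- a denominator for a polynomial in `z` -/
theorem exists_den (p : Polynomial (IntermediateField.adjoin k (Set.range μ))) :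
    ∃ (q : MvPolynomial (Fin r) k) (P : Polynomial (MvPolynomial (Fin r) k)),
      aeval μ q ≠ 0 ∧ aeval μ q * Polynomial.aeval z p =
        P.eval₂ (aeval μ : MvPolynomial (Fin r) k →ₐ[k] κ).toRingHom z := by
  induction p using Polynomial.induction_on' with
  | add p p' hp hp' =>
    obtain ⟨q, P, h1, h2⟩ := hp
    obtain ⟨q', P', h1', h2'⟩ := hp'
    refine ⟨q * q', P * Polynomial.C q' + P' * Polynomial.C q, ?_, ?_⟩
    · rw [map_mul]; exact mul_ne_zero h1 h1'
    · rw [Polynomial.eval₂_add, Polynomial.eval₂_mul, Polynomial.eval₂_mul, Polynomial.eval₂_C,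
        Polynomial.eval₂_C, ← h2, ← h2', map_mul, map_add]
      simp only [AlgHom.toRingHom_eq_coe, RingHom.coe_coe]
      ring
  | monomial n c =>
    obtain ⟨u, w, h1, h2⟩ := exists_quot μ c.2
    refine ⟨w, Polynomial.monomial n u, h1, ?_⟩
    rw [Polynomial.aeval_monomial, Polynomial.eval₂_monomial, ← mul_assoc]
    congr 1

end

theorem pf_VSE (hVID : T_VID) : T_VSE := by
  intro ν r D n k κ _ _ _ V G η τV a s hG hV hHm hinv hFv hfin htop
  set μ : Fin r → κ := fun i => τV^[n] (η (a i)) with hμ
  set M := IntermediateField.adjoin k (Set.range μ) with hM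
  set z : κ := lc s η with hz
  have hzalg : IsAlgebraic M z := (Algebra.IsAlgebraic.of_finite M κ).isAlgebraic z
  -- every coordinate is a polynomial in `z`
  have hpol : ∀ i, ∃ p : Polynomial M, Polynomial.aeval z p = η i := by
    intro i
    have h1 : η i ∈ (IntermediateField.adjoin M {z}).toSubalgebra := by
      rw [htop]
      exact IntermediateField.mem_top
    rw [IntermediateField.adjoin_simple_toSubalgebra_of_isAlgebraic hzalg,
      Algebra.adjoin_singleton_eq_range_aeval] at h1
    exact h1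
  choose p hp using hpol
  choose q P hq hP using fun i => exists_den μ z (p i)
  simp only [hp] at hP
  -- the relations
  let w : Fin (ν + 2) ⊕ Fin (ν + 2) → κ := Sum.elim η fun i => τV^[n] (η i)
  let Q : Fin (ν + 2) → MvPolynomial (Fin (ν + 2) ⊕ Fin (ν + 2)) k := fun i =>
    rename (fun j => Sum.inr (a j)) (q i) * X (Sum.inl i) -
      (P i).eval₂ (rename (fun j => (Sum.inr (a j) : Fin (ν + 2) ⊕ Fin (ν + 2))) :
        MvPolynomial (Fin r) k →ₐ[k] _).toRingHom (∑ j, C (s j) * X (Sum.inl j))
  have hQe : ∀ (L : Type) [Field L] [Algebra k L] (x y : Fin (ν + 2) → L) (i : Fin (ν + 2)),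
      aeval (Sum.elim x y) (Q i) = aeval (fun j => y (a j)) (q i) * x i -
        (P i).eval₂ (aeval (fun j => y (a j)) : MvPolynomial (Fin r) k →ₐ[k] L).toRingHom
          (∑ j, algebraMap k L (s j) * x j) := by
    intro L _ _ x y i
    simp only [Q, map_sub, map_mul, aeval_rename, aeval_X, Sum.elim_inl]
    congr 1
    rw [← AlgHom.coe_toRingHom (aeval (Sum.elim x y)), Polynomial.hom_eval₂]
    congr 1
    · ext1
      · ext c
        simp
      · simp
    · simp
  have hlc : ∀ x : Fin (ν + 2) → k, ∑ j, algebraMap k k (s j) * x j = lc s x := by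
    intro x
    simp [lc, Algebra.algebraMap_self]
  have hQ0 : ∀ i, aeval (Sum.elim η fun i => τV^[n] (η i)) (Q i) = 0 := by
    intro i
    rw [hQe κ η (fun i => τV^[n] (η i)) i, sub_eq_zero, hP i]
    congr 1
    simp only [hz, lc, Algebra.smul_def]
  refine ⟨rename a (∏ i, q i), ?_, ?_⟩
  · rw [aeval_rename, map_prod]
    refine Finset.prod_ne_zero_iff.2 fun i _ h0 => ?_
    apply hq i
    have h1 : (τV ^ n) (aeval (η ∘ a) (q i)) = aeval μ (q i) := by
      rw [← AlgHom.comp_apply, comp_aeval]
      congr 2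
      funext j
      simp only [AlgHom.coe_pow, hμ, Function.comp_apply]
    rw [← h1, h0, map_zero]
  · intro x x' hx hx' hx1 hx1' hn hn' haf hne hlcx
    funext i
    have e1 := hVID ν r D n k κ V G η τV hG hV hHm hinv hFv (Q i) (hQ0 i) x hx hx1 hn
    have e2 := hVID ν r D n k κ V G η τV hG hV hHm hinv hFv (Q i) (hQ0 i) x' hx' hx1' hn'
    rw [← haf] at e2
    have hae : ∀ (w : Fin (ν + 2) ⊕ Fin (ν + 2) → k) (p : MvPolynomial _ k),
        eval w p = aeval w p := fun w p => by rw [← coe_aeval_eq_eval]; rfl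
    rw [hae, hQe k, hlc] at e1 e2
    have hne' : aeval (fun j => af ((pmap G)^[n] x) (a j)) (q i) ≠ 0 := by
      rw [eval_rename, map_prod] at hne
      have := Finset.prod_ne_zero_iff.1 hne i (Finset.mem_univ i)
      rw [← coe_aeval_eq_eval] at this
      exact this
    rw [hlcx] at e1
    have e4 : aeval (fun j => af ((pmap G)^[n] x) (a j)) (q i) * x i =
        aeval (fun j => af ((pmap G)^[n] x) (a j)) (q i) * x' i := by
      linear_combination e1 - e2
    exact mul_left_cancel₀ hne' e4

end Pool.Agent.H88.EDV
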